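import Pool.Agent.helper62.HF.SpecV
import Pool.Agent.helper62.QU.CA1

/-!
# MP_07c750, project HALF: row OPB (the operator bound)
-/

set_option autoImplicit false

open scoped MatrixGroups ContDiff Topology UpperHalfPlane ComplexConjugate
open UpperHalfPlane MeasureTheory Filter Set

namespace Pool.Agent.HV

open Pool.Agent.RS Pool.Agent.MS
open Pool.Agent.EN (XG MG mkX mkM fl pr)

/-- averages over pieces of the orbits of `lM` -/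
lemma OPB_avg (hGLC : RS.GLC_stmt) (hGFD : RS.GFD_stmt) (Γ : Subgroup SL(2, ℝ)) (F : Set ℍ)
    (hΓ : QU.SurfaceGroup Γ) (hF : QU.NiceDom Γ F) (l m : ℝ) (w : SL(2, ℝ) → ℝ) (hw : Measurable w)
    (hb : ∀ g, ‖w g‖ ≤ m) (hi : ∀ (γ : Γ) g, w ((γ : SL(2, ℝ)) * g) = w g) :
    IntegrableOn w (dG F) mG ∧
    IntegrableOn (fun g => ∫ u in (0 : ℝ)..1, w (g * lM (l * u))) (dG F) mG ∧
    ∫ g in dG F, (∫ u in (0 : ℝ)..1, w (g * lM (l * u))) ∂mG = ∫ g in dG F, w g ∂mG := by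
  have : SecondCountableTopology SL(2, ℝ) := hGLC.2.1
  have hlc : Continuous lM := hGLC.2.2.2.2.2.1
  obtain ⟨⟨hFm, -, hFt, -⟩, hG⟩ := hGFD Γ F hΓ hF
  have : IsFiniteMeasure (mG.restrict (dG F)) := ⟨by rw [Measure.restrict_apply_univ]; exact hFt⟩
  have : IsFiniteMeasure ((volume : Measure ℝ).restrict (Ioc 0 1)) :=
    ⟨by rw [Measure.restrict_apply_univ]; exact measure_Ioc_lt_top⟩
  have hc : Continuous (fun p : SL(2, ℝ) × ℝ => p.1 * lM (l * p.2)) :=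
    continuous_fst.mul (hlc.comp (continuous_const.mul continuous_snd))
  have hI : Integrable (fun p : SL(2, ℝ) × ℝ => w (p.1 * lM (l * p.2)))
      ((mG.restrict (dG F)).prod ((volume : Measure ℝ).restrict (Ioc 0 1))) :=
    Integrable.of_bound ((hw.comp hc.measurable).aestronglyMeasurable) m
      (Filter.Eventually.of_forall (fun p => hb _))
  have hint : ∀ g : SL(2, ℝ), ∫ u in (0 : ℝ)..1, w (g * lM (l * u)) = ∫ u in Ioc (0 : ℝ) 1, w (g * lM (l * u)) := by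
    intro g
    rw [intervalIntegral.integral_of_le zero_le_one]
  refine ⟨Integrable.of_bound hw.aestronglyMeasurable m (Filter.Eventually.of_forall hb), ?_, ?_⟩
  · have h := hI.integral_prod_left
    have he : (fun g => ∫ u in (0 : ℝ)..1, w (g * lM (l * u))) = fun g => ∫ u in Ioc (0 : ℝ) 1, w (g * lM (l * u)) :=
      funext hint
    rw [he]
    exact h
  · simp_rw [hint]
    rw [integral_integral_swap hI]
    have h2 : ∀ u : ℝ, ∫ g in dG F, w (g * lM (l * u)) ∂mG = ∫ g in dG F, w g ∂mG := fun u =>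
      (hG ℝ).1 w (lM (l * u)) hi
    simp_rw [h2]
    rw [setIntegral_const]
    simp

/-- the part of a segment in `B` -/
lemma OPB_seg (hGLC : RS.GLC_stmt) (B1 : Set SL(2, ℝ)) (hB1 : MeasurableSet B1) (f : SL(2, ℝ) → ℝ)
    (ε r : ℝ) (hε : 0 < ε) (hr : 0 < r) (g : SL(2, ℝ)) :
    ∫ v in (0 : ℝ)..1, ({g : SL(2, ℝ) | g * aM (Real.log (4 * ε * r / Real.pi)) ∈ B1}.indicator f)
        (g * lM (Real.pi / (4 * ε * r) * v)) =
      ∫ v in Icc (0 : ℝ) 1 ∩ {v | g * aM (Real.log (4 * ε * r / Real.pi)) * lM v ∈ B1},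
        f (g * lM (Real.pi / (4 * ε * r) * v)) := by
  have hlc : Continuous lM := hGLC.2.2.2.2.2.1
  have hla : ∀ u t, lM u * aM t = aM t * lM (Real.exp t * u) := by
    obtain ⟨-, -, -, -, -, -, -, -, -, -, -, -, -, -, -, -, -, -, h, -⟩ := hGLC
    exact h
  have hpos : 0 < 4 * ε * r / Real.pi := by positivity
  have hkey : ∀ v : ℝ, g * lM (Real.pi / (4 * ε * r) * v) * aM (Real.log (4 * ε * r / Real.pi)) =
      g * aM (Real.log (4 * ε * r / Real.pi)) * lM v := by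
    intro v
    rw [mul_assoc, hla, Real.exp_log hpos, ← mul_assoc]
    have : 4 * ε * r / Real.pi * (Real.pi / (4 * ε * r) * v) = v := by
      field_simp
    rw [this]
  have hmeas : MeasurableSet {v : ℝ | g * aM (Real.log (4 * ε * r / Real.pi)) * lM v ∈ B1} :=
    (continuous_const.mul hlc).measurable hB1
  rw [intervalIntegral.integral_of_le zero_le_one, ← integral_Icc_eq_integral_Ioc,
    ← setIntegral_indicator hmeas]
  refine setIntegral_congr_fun measurableSet_Icc ?_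
  intro v _
  beta_reduce
  by_cases h : g * aM (Real.log (4 * ε * r / Real.pi)) * lM v ∈ B1
  · have h1 : g * lM (Real.pi / (4 * ε * r) * v) ∈ {g : SL(2, ℝ) | g * aM (Real.log (4 * ε * r / Real.pi)) ∈ B1} := by
      rw [mem_ofPred_eq, hkey]; exact h
    rw [indicator_of_mem h1, indicator_of_mem (by exact h)]
  · have h1 : g * lM (Real.pi / (4 * ε * r) * v) ∉ {g : SL(2, ℝ) | g * aM (Real.log (4 * ε * r / Real.pi)) ∈ B1} := by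
      rw [mem_ofPred_eq, hkey]; exact h
    rw [indicator_of_notMem h1, indicator_of_notMem (by exact h)]

/-- bounded measurable invariant functions -/
def OPB_G (Γ : Subgroup SL(2, ℝ)) (w : SL(2, ℝ) → ℝ) : Prop :=
  Measurable w ∧ (∃ m : ℝ, ∀ g, ‖w g‖ ≤ m) ∧ ∀ (γ : Γ) g, w ((γ : SL(2, ℝ)) * g) = w g

/-- integration of the inequality for the segments -/
lemma OPB_comb (hGLC : RS.GLC_stmt) (hGFD : RS.GFD_stmt) (Γ : Subgroup SL(2, ℝ)) (F : Set ℍ)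
    (hΓ : QU.SurfaceGroup Γ) (hF : QU.NiceDom Γ F) (l q c : ℝ) (J : Finset ℤ) (A : SL(2, ℝ) → ℝ)
    (P R S : ℤ → SL(2, ℝ) → ℝ) (hA : OPB_G Γ A) (hP : ∀ j, OPB_G Γ (P j)) (hR : ∀ j, OPB_G Γ (R j))
    (hS : ∀ j, OPB_G Γ (S j))
    (h : ∀ g : SL(2, ℝ), ∫ v in (0 : ℝ)..1, A (g * lM (l * v)) ≤
      q * ∑ j ∈ J, (P j g + ∫ u in (0 : ℝ)..1, R j (g * lM (l * u))) +
        c * ∑ j ∈ J, ∫ u in (0 : ℝ)..1, S j (g * lM (l * u))) :
    ∫ g in dG F, A g ∂mG ≤ q * ∑ j ∈ J, (∫ g in dG F, P j g ∂mG + ∫ g in dG F, R j g ∂mG) +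
      c * ∑ j ∈ J, ∫ g in dG F, S j g ∂mG := by
  obtain ⟨hA1, ⟨mA, hA2⟩, hA3⟩ := hA
  have aA := OPB_avg hGLC hGFD Γ F hΓ hF l mA A hA1 hA2 hA3
  have aP : ∀ j, IntegrableOn (P j) (dG F) mG := by
    intro j
    obtain ⟨h1, ⟨m, h2⟩, h3⟩ := hP j
    exact (OPB_avg hGLC hGFD Γ F hΓ hF l m (P j) h1 h2 h3).1
  have aR : ∀ j, IntegrableOn (fun g => ∫ u in (0 : ℝ)..1, R j (g * lM (l * u))) (dG F) mG ∧
      ∫ g in dG F, (∫ u in (0 : ℝ)..1, R j (g * lM (l * u))) ∂mG = ∫ g in dG F, R j g ∂mG := by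
    intro j
    obtain ⟨h1, ⟨m, h2⟩, h3⟩ := hR j
    exact (OPB_avg hGLC hGFD Γ F hΓ hF l m (R j) h1 h2 h3).2
  have aS : ∀ j, IntegrableOn (fun g => ∫ u in (0 : ℝ)..1, S j (g * lM (l * u))) (dG F) mG ∧
      ∫ g in dG F, (∫ u in (0 : ℝ)..1, S j (g * lM (l * u))) ∂mG = ∫ g in dG F, S j g ∂mG := by
    intro j
    obtain ⟨h1, ⟨m, h2⟩, h3⟩ := hS j
    exact (OPB_avg hGLC hGFD Γ F hΓ hF l m (S j) h1 h2 h3).2
  have iPR : ∀ j ∈ J, Integrable (fun g => P j g + ∫ u in (0 : ℝ)..1, R j (g * lM (l * u))) (mG.restrict (dG F)) :=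
    fun j _ => (aP j).add (aR j).1
  have iS : ∀ j ∈ J, Integrable (fun g => ∫ u in (0 : ℝ)..1, S j (g * lM (l * u))) (mG.restrict (dG F)) :=
    fun j _ => (aS j).1
  have i1 : Integrable (fun g => q * ∑ j ∈ J, (P j g + ∫ u in (0 : ℝ)..1, R j (g * lM (l * u)))) (mG.restrict (dG F)) :=
    (integrable_finsetSum J iPR).const_mul q
  have i2 : Integrable (fun g => c * ∑ j ∈ J, ∫ u in (0 : ℝ)..1, S j (g * lM (l * u))) (mG.restrict (dG F)) :=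
    (integrable_finsetSum J iS).const_mul c
  rw [← aA.2.2]
  refine le_trans (integral_mono aA.2.1 (i1.add i2) h) (le_of_eq ?_)
  have e1 : ∫ g in dG F, (q * ∑ j ∈ J, (P j g + ∫ u in (0 : ℝ)..1, R j (g * lM (l * u)))) ∂mG =
      q * ∑ j ∈ J, (∫ g in dG F, P j g ∂mG + ∫ g in dG F, R j g ∂mG) := by
    rw [integral_const_mul, integral_finsetSum J iPR]
    congr 1
    refine Finset.sum_congr rfl (fun j _ => ?_)
    rw [integral_add (aP j) (aR j).1, (aR j).2]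
  have e2 : ∫ g in dG F, (c * ∑ j ∈ J, ∫ u in (0 : ℝ)..1, S j (g * lM (l * u))) ∂mG =
      c * ∑ j ∈ J, ∫ g in dG F, S j g ∂mG := by
    rw [integral_const_mul, integral_finsetSum J iS]
    congr 1
    refine Finset.sum_congr rfl (fun j _ => ?_)
    rw [(aS j).2]
  rw [← e1, ← e2]
  exact integral_add i1 i2

/-- `‖Wf‖²` is bounded, measurable and invariant -/
lemma OPB_Wf (hFL0 : RS.FL0_stmt) (hGBD : RS.GBD_stmt) (Γ : Subgroup SL(2, ℝ)) (hΓ : QU.SurfaceGroup Γ)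
    (c : ℍ → ℂ) (r : ℝ) (ψ : ℍ → ℂ) (hc : TB (1 / 4) c) (hψ : InvC Γ ψ) :
    OPB_G Γ (fun g => ‖Wf (pk r c) ψ g‖ ^ 2) := by
  obtain ⟨h1, h2, h3⟩ := hFL0
  obtain ⟨hk1, hk2⟩ := h2 (1 / 4) r c hc
  have hcont : Continuous (pk r c) := ((QU.CA1 ℂ).1 _).1 ((QU.CA1 ℂ).2.1 _ 0 _ bot_le hk1)
  have hI := h3 Γ (pk r c) ψ hcont hk2 hψ
  obtain ⟨⟨m, hm⟩, -⟩ := hGBD Γ ℂ _ hΓ hI
  refine ⟨(hI.1.norm.pow 2).measurable, ⟨m ^ 2, fun g => ?_⟩, fun γ g => ?_⟩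
  · rw [Real.norm_of_nonneg (by positivity)]
    exact pow_le_pow_left₀ (norm_nonneg _) (hm g) 2
  · simp only [hI.2]

/-- the numbers -/
lemma OPB_num (r Q η N X S1 S2 S3 S4 n V : ℝ) (hr : 0 < r) (hQ : 0 ≤ Q) (hV : 0 ≤ V)
    (hn : r * n ≤ 11 / 10 * V) (h1 : r * S1 ≤ 2 * n) (h2 : r * S2 ≤ 4 * n) (h3 : r * S3 ≤ n) (h4 : r ^ 2 * (N * S4) ≤ η * V)
    (hX : X ≤ 4 * Q * (S1 + (2 * S2 + 2 * S3)) + N * S4) : r ^ 2 * X ≤ (64 * Q + η) * V := by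
  have hr2 : 0 < r ^ 2 := by positivity
  have e1 : r ^ 2 * X ≤ r ^ 2 * (4 * Q * (S1 + (2 * S2 + 2 * S3)) + N * S4) := mul_le_mul_of_nonneg_left hX hr2.le
  have e2 : r * (S1 + (2 * S2 + 2 * S3)) ≤ 12 * n := by nlinarith
  have e3 : r * (r * (S1 + (2 * S2 + 2 * S3))) ≤ r * (12 * n) := mul_le_mul_of_nonneg_left e2 hr.le
  have e4 : r * (12 * n) ≤ 12 * (11 / 10 * V) := by linarith
  have e5 : 4 * Q * (r * (r * (S1 + (2 * S2 + 2 * S3)))) ≤ 4 * Q * (12 * (11 / 10 * V)) :=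
    mul_le_mul_of_nonneg_left (e3.trans e4) (by positivity)
  have e6 : 0 ≤ Q * V := mul_nonneg hQ hV
  nlinarith

/-- **Row OPB**. -/
theorem OPB_proof (hPUX : PUX_stmt) (hCLL : CLL_stmt) (hFRB : FRB_stmt) (hDVF : DVF_stmt) (hOPL : OPL_stmt)
    (hTAI : TAI_stmt) (hNM3 : MS.NM3_stmt) (hSYB : MS.SYB_stmt) (hSTB : MS.STB_stmt) (hTRV : RS.TRV_stmt)
    (hCV1 : RS.CV1_stmt) (hFL0 : RS.FL0_stmt) (hGFD : RS.GFD_stmt) (hGBD : RS.GBD_stmt) (hGLC : RS.GLC_stmt) :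
    OPB_stmt := by
  intro Γ F β α T ε δ1 l0 Q J0 B1 D Dp hΓ hF hβ hα hT hε hδ1 hl0 hJ0 hQ hB1 hDp hB1i hDpi hloc hleaf η hη
  obtain ⟨χ, hχ⟩ := hPUX
  have hlc : Continuous lM := hGLC.2.2.2.2.2.1
  have hnc : Continuous nM := hGLC.2.2.2.2.1
  -- the data
  have hβS : SB (1 / 4) β := hβ.1
  have hαS : SB (1 / 4) α := hα.1
  obtain ⟨hCb, hCs, hCi, -⟩ := hCLL χ β ε hχ hβS hε
  set J : Finset ℤ := Finset.Icc (-(J0 : ℤ)) J0 with hJ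
  obtain ⟨hs1, hs2⟩ := hCi J0
  rw [hβ.2] at hs1 hs2
  have hM0 : (0 : ℝ) < 2 * (J0 : ℝ) + 1 := by positivity
  have hcard : (J.card : ℝ) = 2 * (J0 : ℝ) + 1 := by
    rw [hJ, Int.card_Icc]
    have : ((J0 : ℤ) + 1 - -(J0 : ℤ)).toNat = 2 * J0 + 1 := by omega
    rw [this]; push_cast; ring
  set η1 : ℝ := 1 / (2 * (J0 : ℝ) + 1) with hη1
  have hη1p : 0 < η1 := by positivity
  -- the narrow profile
  have hstB : BB (Real.exp (-T) * (1 / 4)) (st (-T) β) := hSTB.2.2.2.1 (1 / 4) (-T) β hβ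
  have hexpT : Real.exp (-T) * (1 / 4) ≤ 1 / 4 := by
    have : Real.exp (-T) ≤ 1 := Real.exp_le_one_iff.2 (by linarith)
    linarith
  have hstB4 : BB (1 / 4) (st (-T) β) := (hSTB.2.2.2.2.1 _ _ (st (-T) β) hexpT).2.2 hstB
  -- the constants
  have hA : ∀ j : ℤ, ∃ r0 : ℝ, 1 ≤ r0 ∧ ∀ r : ℝ, r0 ≤ r → ∀ u : ℍ → ℂ, InvC Γ u →
      r * qn F (pc (bj χ β ε j) α) r u ≤ ((∫ x, bj χ β ε j x ^ 2) + η1) * nn F u :=
    fun j => hFRB Γ F α (bj χ β ε j) hΓ hF hα (hCb j).1 η1 hη1p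
  have hA' : ∀ j : ℤ, ∃ r0 : ℝ, 1 ≤ r0 ∧ ∀ r : ℝ, r0 ≤ r → ∀ u : ℍ → ℂ, InvC Γ u →
      r * qn F (pc (b1 χ β ε j) α) r u ≤ ((∫ x, b1 χ β ε j x ^ 2) + η1) * nn F u :=
    fun j => hFRB Γ F α (b1 χ β ε j) hΓ hF hα (hCb j).2 η1 hη1p
  choose ra hra1 hra using hA
  choose rb hrb1 hrb using hA'
  obtain ⟨rc, hrc1, hrc⟩ := hNM3 Γ F α (st (-T) β) hΓ hF hα hstB4 (1 / 10) (by norm_num)
  have hej : ∀ j : ℤ, TB (1 / 4) (ej χ β α ε j) := fun j =>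
    (hDVF χ β α ε 1 j (fun _ => 0) 1 hχ hβS hαS hε one_pos continuous_const).1
  have hKe : ∀ j : ℤ, ∃ K : ℝ, 0 ≤ K ∧ ∀ (Γ : Subgroup SL(2, ℝ)) (F : Set ℍ) (r : ℝ) (φ : ℍ → ℂ),
      QU.SurfaceGroup Γ → QU.NiceDom Γ F → InvC Γ φ → qn F (ej χ β α ε j) r φ ≤ K * nn F φ :=
    fun j => hTRV _ (hej j)
  choose Ke hKe0 hKe using hKe
  have hTA := fun j : ℤ => hTAI Γ F β α (bj χ β ε j) α T δ1 hΓ hF hβS hαS (hCb j).1 hαS hT hδ1
  choose Ce hCe0 hCe using hTA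
  have hra0 : ∀ j, 0 ≤ ra j := fun j => zero_le_one.trans (hra1 j)
  have hrb0 : ∀ j, 0 ≤ rb j := fun j => zero_le_one.trans (hrb1 j)
  set ρ1 : ℝ := ∑ j ∈ J, (ra j + rb j) with hρ1
  set ρ2 : ℝ := Real.pi / (4 * ε * l0) with hρ2
  set ρ3 : ℝ := Real.pi ^ 2 / (16 * ε ^ 2) * (∑ j ∈ J, Ke j) with hρ3
  set ρ4 : ℝ := 2 * (2 * (J0 : ℝ) + 1) * (∑ j ∈ J, Ce j) / η with hρ4
  have hKs : 0 ≤ ∑ j ∈ J, Ke j := Finset.sum_nonneg (fun j _ => hKe0 j)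
  have hCs0 : 0 ≤ ∑ j ∈ J, Ce j := Finset.sum_nonneg (fun j _ => (hCe0 j).le)
  have hρ1p : 0 ≤ ρ1 := Finset.sum_nonneg (fun j _ => add_nonneg (hra0 j) (hrb0 j))
  have hρ2p : 0 ≤ ρ2 := by positivity
  have hρ3p : 0 ≤ ρ3 := by positivity
  have hρ4p : 0 ≤ ρ4 := by positivity
  refine ⟨rc + ρ1 + ρ2 + ρ3 + ρ4, by linarith, ?_⟩
  intro r s hr hsm hsb hsi hsD
  have hr1 : 1 ≤ r := by linarith
  have hrp : 0 < r := by linarith
  have hrrc : rc ≤ r := by linarith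
  have hrr1 : ρ1 ≤ r := by linarith
  have hrr2 : ρ2 ≤ r := by linarith
  have hrr3 : ρ3 ≤ r := by linarith
  have hrr4 : ρ4 ≤ r := by linarith
  have hraj : ∀ j ∈ J, ra j ≤ r := by
    intro j hj
    have : ra j + rb j ≤ ρ1 := Finset.single_le_sum (f := fun j => ra j + rb j)
      (fun i _ => add_nonneg (hra0 i) (hrb0 i)) hj
    linarith [hrb0 j]
  have hrbj : ∀ j ∈ J, rb j ≤ r := by
    intro j hj
    have : ra j + rb j ≤ ρ1 := Finset.single_le_sum (f := fun j => ra j + rb j)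
      (fun i _ => add_nonneg (hra0 i) (hrb0 i)) hj
    linarith [hra0 j]
  set l : ℝ := Real.pi / (4 * ε * r) with hl
  have hlp : 0 < l := by positivity
  have hll0 : l ≤ l0 := by
    rw [hl, div_le_iff₀ (by positivity)]
    rw [hρ2, div_le_iff₀ (by positivity)] at hrr2
    linarith
  -- the function `ψ`
  set c' : ℍ → ℂ := pc (st (-T) β) α with hc'
  have hTBc' : TB (1 / 4) c' := (hCV1.2.2 (1 / 4) α (st (-T) β) hαS hstB4.1).1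
  obtain ⟨hk1, hk2⟩ := hFL0.2.1 (1 / 4) r c' hTBc'
  have hk3 : Continuous (pk r c') := ((QU.CA1 ℂ).1 _).1 ((QU.CA1 ℂ).2.1 _ 0 _ bot_le hk1)
  have hframe : ∀ u : ℍ → ℂ, InvC Γ u → iR F (fun g => ‖Wf (pk r c') u g‖ ^ 2) ≤ 11 / 10 / r * nn F u := by
    intro u hu
    have h := (hrc r hrrc).1 u hu
    have h2 : qn F c' r u ≤ 11 / 10 / r * nn F u := by
      rw [div_mul_eq_mul_div, le_div_iff₀ hrp]
      linarith
    exact h2
  set ψ : ℍ → ℂ := sy Γ F (fun z => conj (pk r c' z)) s with hψ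
  obtain ⟨hψI, hψn⟩ := hSYB Γ F (pk r c') (11 / 10 / r) hΓ hF hk3 hk2 (by positivity) hframe s hsm hsb
  rw [← hψ] at hψI hψn
  have hV0 : 0 ≤ iR F (fun g => ‖s g‖ ^ 2) := integral_nonneg (fun g => by positivity)
  have hn0 : 0 ≤ nn F ψ := integral_nonneg (fun g => by positivity)
  have hrn : r * nn F ψ ≤ 11 / 10 * iR F (fun g => ‖s g‖ ^ 2) := by
    rw [div_mul_eq_mul_div, le_div_iff₀ hrp] at hψn
    linarith
  -- the functions on the group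
  have hTBc : TB (1 / 4) (pc β α) := (hCV1.2.2 (1 / 4) α β hαS hβS).1
  have hTBb : ∀ j, TB (1 / 4) (pc (bj χ β ε j) α) := fun j => (hCV1.2.2 (1 / 4) α _ hαS (hCb j).1).1
  have hTB1 : ∀ j, TB (1 / 4) (pc (b1 χ β ε j) α) := fun j => (hCV1.2.2 (1 / 4) α _ hαS (hCb j).2).1
  set B : Set SL(2, ℝ) := {g | g * aM (Real.log (4 * ε * r / Real.pi)) ∈ B1} with hB
  have hBm : MeasurableSet B := (continuous_mul_const _).measurable hB1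
  have hBi : ∀ (γ : Γ) (g : SL(2, ℝ)), (γ : SL(2, ℝ)) * g ∈ B ↔ g ∈ B := by
    intro γ g
    rw [hB, mem_ofPred_eq, mem_ofPred_eq, mul_assoc, hB1i]
  have hDj : ∀ j : ℤ, MeasurableSet {g' : SL(2, ℝ) | g' * nM (j * ε) ∉ Dp} := fun j =>
    ((continuous_mul_const _).measurable hDp).compl
  have hind : ∀ (E : Set SL(2, ℝ)) (w : SL(2, ℝ) → ℝ), MeasurableSet E → (∀ (γ : Γ) (g : SL(2, ℝ)), (γ : SL(2, ℝ)) * g ∈ E ↔ g ∈ E) →
      OPB_G Γ w → OPB_G Γ (E.indicator w) := by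
    intro E w hE hEi hw
    obtain ⟨h1, ⟨m, h2⟩, h3⟩ := hw
    refine ⟨h1.indicator hE, ⟨m, fun g => (norm_indicator_le_norm_self _ _).trans (h2 g)⟩, fun γ g => ?_⟩
    by_cases h : g ∈ E
    · rw [indicator_of_mem h, indicator_of_mem ((hEi γ g).2 h), h3]
    · rw [indicator_of_notMem h, indicator_of_notMem (fun h' => h ((hEi γ g).1 h'))]
  have hDji : ∀ (j : ℤ) (γ : Γ) (g : SL(2, ℝ)), (γ : SL(2, ℝ)) * g ∈ {g' : SL(2, ℝ) | g' * nM (j * ε) ∉ Dp} ↔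
      g ∈ {g' : SL(2, ℝ) | g' * nM (j * ε) ∉ Dp} := by
    intro j γ g
    rw [mem_ofPred_eq, mem_ofPred_eq, mul_assoc, hDpi]
  have gA : OPB_G Γ (B.indicator (fun g => ‖Wf (pk r (pc β α)) ψ g‖ ^ 2)) :=
    hind B _ hBm hBi (OPB_Wf hFL0 hGBD Γ hΓ _ r ψ hTBc hψI)
  have gP : ∀ j : ℤ, OPB_G Γ (fun g => ‖Wf (pk r (pc (bj χ β ε j) α)) ψ g‖ ^ 2) := fun j =>
    OPB_Wf hFL0 hGBD Γ hΓ _ r ψ (hTBb j) hψI
  have gR1 : ∀ j : ℤ, OPB_G Γ (fun g => ‖Wf (pk r (pc (b1 χ β ε j) α)) ψ g‖ ^ 2) := fun j =>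
    OPB_Wf hFL0 hGBD Γ hΓ _ r ψ (hTB1 j) hψI
  have gR2 : ∀ j : ℤ, OPB_G Γ (fun g => ‖Wf (pk r (ej χ β α ε j)) ψ g‖ ^ 2) := fun j =>
    OPB_Wf hFL0 hGBD Γ hΓ _ r ψ (hej j) hψI
  have gR : ∀ j : ℤ, OPB_G Γ (fun g => 2 * ‖Wf (pk r (pc (b1 χ β ε j) α)) ψ g‖ ^ 2 +
      2 * l ^ 2 * ‖Wf (pk r (ej χ β α ε j)) ψ g‖ ^ 2) := by
    intro j
    obtain ⟨a1, ⟨m, a2⟩, a3⟩ := gR1 j
    obtain ⟨b1', ⟨m', b2⟩, b3⟩ := gR2 j
    refine ⟨(a1.const_mul 2).add (b1'.const_mul (2 * l ^ 2)), ⟨2 * m + 2 * l ^ 2 * m', fun g => ?_⟩, fun γ g => ?_⟩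
    · refine (norm_add_le _ _).trans (add_le_add ?_ ?_)
      · rw [norm_mul, Real.norm_of_nonneg (by norm_num : (0 : ℝ) ≤ 2)]
        exact mul_le_mul_of_nonneg_left (a2 g) (by norm_num)
      · rw [norm_mul, Real.norm_of_nonneg (by positivity : (0 : ℝ) ≤ 2 * l ^ 2)]
        exact mul_le_mul_of_nonneg_left (b2 g) (by positivity)
    · have e1 := a3 γ g
      have e2 := b3 γ g
      beta_reduce at e1 e2 ⊢
      rw [e1, e2]
  have gS : ∀ j : ℤ, OPB_G Γ ({g' : SL(2, ℝ) | g' * nM (j * ε) ∉ Dp}.indicator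
      (fun g' => ‖Wf (pk r (pc (bj χ β ε j) α)) ψ g'‖ ^ 2)) := fun j => hind _ _ (hDj j) (hDji j) (gP j)
  -- the inequality for the segments
  have hseg : ∀ g : SL(2, ℝ), ∫ v in (0 : ℝ)..1, (B.indicator (fun g => ‖Wf (pk r (pc β α)) ψ g‖ ^ 2)) (g * lM (l * v)) ≤
      4 * Q * ∑ j ∈ J, (‖Wf (pk r (pc (bj χ β ε j) α)) ψ g‖ ^ 2 + ∫ u in (0 : ℝ)..1,
        (2 * ‖Wf (pk r (pc (b1 χ β ε j) α)) ψ (g * lM (l * u))‖ ^ 2 +
          2 * l ^ 2 * ‖Wf (pk r (ej χ β α ε j)) ψ (g * lM (l * u))‖ ^ 2)) +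
        2 * (2 * J0 + 1) * ∑ j ∈ J, ∫ u in (0 : ℝ)..1, ({g' : SL(2, ℝ) | g' * nM (j * ε) ∉ Dp}.indicator
          (fun g' => ‖Wf (pk r (pc (bj χ β ε j) α)) ψ g'‖ ^ 2)) (g * lM (l * u)) := by
    intro g
    rw [hB, hl, OPB_seg hGLC B1 hB1 _ ε r hε hrp g]
    exact hOPL Γ χ β α ε Q r J0 B1 Dp ψ g hΓ hχ hβS hαS hε hrp hJ0 hQ hB1 hDp hψI
      (fun J' a hJ' => hleaf l g _ J' a hlp.le hll0 hJ')
  have hmain := OPB_comb hGLC hGFD Γ F hΓ hF l (4 * Q) (2 * (2 * J0 + 1)) J _ _ _ _ gA gP gR gS hseg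
  have hdG : MeasurableSet (dG F) := (hGFD Γ F hΓ hF).1.1
  rw [setIntegral_indicator hBm] at hmain
  have hfin : mG (dG F) < ⊤ := (hGFD Γ F hΓ hF).1.2.2.1
  have hfin' : IsFiniteMeasure (mG.restrict (dG F)) := ⟨by rw [Measure.restrict_apply_univ]; exact hfin⟩
  have hint : ∀ w : SL(2, ℝ) → ℝ, OPB_G Γ w → Integrable w (mG.restrict (dG F)) := by
    intro w hw
    obtain ⟨h1, ⟨m, h2⟩, -⟩ := hw
    exact Integrable.of_bound h1.aestronglyMeasurable m (Filter.Eventually.of_forall h2)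
  have hR : ∀ j : ℤ, ∫ g in dG F, (2 * ‖Wf (pk r (pc (b1 χ β ε j) α)) ψ g‖ ^ 2 +
      2 * l ^ 2 * ‖Wf (pk r (ej χ β α ε j)) ψ g‖ ^ 2) ∂mG =
      2 * qn F (pc (b1 χ β ε j) α) r ψ + 2 * l ^ 2 * qn F (ej χ β α ε j) r ψ := by
    intro j
    rw [integral_add ((hint _ (gR1 j)).const_mul 2) ((hint _ (gR2 j)).const_mul (2 * l ^ 2)),
      integral_const_mul, integral_const_mul]
    rfl
  simp_rw [hR] at hmain
  have hS : ∀ j : ℤ, ∫ g in dG F, ({g' : SL(2, ℝ) | g' * nM (j * ε) ∉ Dp}.indicator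
      (fun g' => ‖Wf (pk r (pc (bj χ β ε j) α)) ψ g'‖ ^ 2)) g ∂mG =
      ∫ g in dG F ∩ {g' : SL(2, ℝ) | g' * nM (j * ε) ∉ Dp}, ‖Wf (pk r (pc (bj χ β ε j) α)) ψ g‖ ^ 2 ∂mG :=
    fun j => setIntegral_indicator (hDj j)
  simp_rw [hS] at hmain
  -- the tail
  have htail : ∀ j ∈ J, r ^ 2 * ∫ g in dG F ∩ {g' : SL(2, ℝ) | g' * nM (j * ε) ∉ Dp},
      ‖Wf (pk r (pc (bj χ β ε j) α)) ψ g‖ ^ 2 ∂mG ≤ Ce j / r ^ 2 * iR F (fun g => ‖s g‖ ^ 2) := by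
    intro j hj
    refine hCe j r s _ hr1 hsm hsb hsi (hDj j) ?_
    intro g k w hg hsk hw hkw
    by_contra hcon
    rw [not_lt] at hcon
    have hgk : g * k ∈ D := hsD _ hsk
    have hw' : st (-T) β w.re * α (Real.log w.im) ≠ 0 := by
      intro h0
      exact hw (show ((st (-T) β w.re * α (Real.log w.im) : ℝ) : ℂ) = 0 by rw [h0]; simp)
    have hkw' : bj χ β ε j (k • w).re * α (Real.log (k • w).im) ≠ 0 := by
      intro h0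
      exact hkw (show ((bj χ β ε j (k • w).re * α (Real.log (k • w).im) : ℝ) : ℂ) = 0 by rw [h0]; simp)
    have h1 : |w.re| ≤ Real.exp (-T) / 4 := by
      have := hstB.1.2 w.re (left_ne_zero_of_mul hw')
      linarith
    have h2 : |Real.log w.im| ≤ 1 / 4 := hαS.2 _ (right_ne_zero_of_mul hw')
    have h3 : |(k • w).re - j * ε| ≤ ε := hCs j _ (left_ne_zero_of_mul hkw')
    have h4 : |Real.log (k • w).im| ≤ 1 / 4 := hαS.2 _ (right_ne_zero_of_mul hkw')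
    have hjJ : |j| ≤ (J0 : ℤ) := by
      rw [hJ, Finset.mem_Icc] at hj
      exact abs_le.2 hj
    exact hg (hloc j g k w hjJ hcon h1 h2 h3 h4 hgk)
  -- conclusion
  have hcJ : ∑ j ∈ J, η1 = 1 := by
    rw [Finset.sum_const, nsmul_eq_mul, hcard, hη1]
    field_simp
  refine OPB_num r Q η (2 * (2 * J0 + 1)) _ (∑ j ∈ J, qn F (pc (bj χ β ε j) α) r ψ) (∑ j ∈ J, qn F (pc (b1 χ β ε j) α) r ψ)
    (∑ j ∈ J, l ^ 2 * qn F (ej χ β α ε j) r ψ) (∑ j ∈ J, ∫ g in dG F ∩ {g' : SL(2, ℝ) | g' * nM (j * ε) ∉ Dp},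
      ‖Wf (pk r (pc (bj χ β ε j) α)) ψ g‖ ^ 2 ∂mG) (nn F ψ) (iR F (fun g => ‖s g‖ ^ 2)) hrp hQ hV0 hrn ?_ ?_ ?_ ?_ ?_
  · rw [Finset.mul_sum]
    calc ∑ j ∈ J, r * qn F (pc (bj χ β ε j) α) r ψ ≤ ∑ j ∈ J, ((∫ x, bj χ β ε j x ^ 2) + η1) * nn F ψ :=
          Finset.sum_le_sum (fun j hj => hra j r (hraj j hj) ψ hψI)
      _ = (∑ j ∈ J, (∫ x, bj χ β ε j x ^ 2) + ∑ j ∈ J, η1) * nn F ψ := by
          rw [← Finset.sum_add_distrib, Finset.sum_mul]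
      _ ≤ 2 * nn F ψ := by
          rw [hcJ]
          exact mul_le_mul_of_nonneg_right (by linarith) hn0
  · rw [Finset.mul_sum]
    calc ∑ j ∈ J, r * qn F (pc (b1 χ β ε j) α) r ψ ≤ ∑ j ∈ J, ((∫ x, b1 χ β ε j x ^ 2) + η1) * nn F ψ :=
          Finset.sum_le_sum (fun j hj => hrb j r (hrbj j hj) ψ hψI)
      _ = (∑ j ∈ J, (∫ x, b1 χ β ε j x ^ 2) + ∑ j ∈ J, η1) * nn F ψ := by
          rw [← Finset.sum_add_distrib, Finset.sum_mul]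
      _ ≤ 4 * nn F ψ := by
          rw [hcJ]
          exact mul_le_mul_of_nonneg_right (by linarith) hn0
  · have hKb : r * (l ^ 2 * ∑ j ∈ J, Ke j) ≤ 1 := by
      have e : r * (l ^ 2 * ∑ j ∈ J, Ke j) = ρ3 / r := by
        rw [hl, hρ3]
        field_simp
        ring
      rw [e, div_le_one hrp]
      exact hrr3
    calc r * ∑ j ∈ J, l ^ 2 * qn F (ej χ β α ε j) r ψ ≤ r * ∑ j ∈ J, l ^ 2 * (Ke j * nn F ψ) := by
          refine mul_le_mul_of_nonneg_left (Finset.sum_le_sum (fun j _ => ?_)) hrp.le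
          exact mul_le_mul_of_nonneg_left (hKe j Γ F r ψ hΓ hF hψI) (by positivity)
      _ = r * (l ^ 2 * ∑ j ∈ J, Ke j) * nn F ψ := by
          rw [← Finset.mul_sum, ← Finset.sum_mul]
          ring
      _ ≤ 1 * nn F ψ := mul_le_mul_of_nonneg_right hKb hn0
      _ = nn F ψ := one_mul _
  · have hCb' : 2 * (2 * (J0 : ℝ) + 1) * (∑ j ∈ J, Ce j) / r ^ 2 ≤ η := by
      rw [div_le_iff₀ (by positivity)]
      rw [hρ4, div_le_iff₀ hη] at hrr4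
      have h2 : r ≤ r ^ 2 := by nlinarith
      have h3 : η * r ≤ η * r ^ 2 := mul_le_mul_of_nonneg_left h2 hη.le
      linarith
    calc r ^ 2 * (2 * (2 * (J0 : ℝ) + 1) * ∑ j ∈ J, ∫ g in dG F ∩ {g' : SL(2, ℝ) | g' * nM (j * ε) ∉ Dp},
          ‖Wf (pk r (pc (bj χ β ε j) α)) ψ g‖ ^ 2 ∂mG)
        = 2 * (2 * (J0 : ℝ) + 1) * ∑ j ∈ J, r ^ 2 * ∫ g in dG F ∩ {g' : SL(2, ℝ) | g' * nM (j * ε) ∉ Dp},
          ‖Wf (pk r (pc (bj χ β ε j) α)) ψ g‖ ^ 2 ∂mG := by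
          rw [← Finset.mul_sum]; ring
      _ ≤ 2 * (2 * (J0 : ℝ) + 1) * ∑ j ∈ J, Ce j / r ^ 2 * iR F (fun g => ‖s g‖ ^ 2) :=
          mul_le_mul_of_nonneg_left (Finset.sum_le_sum htail) (by positivity)
      _ = 2 * (2 * (J0 : ℝ) + 1) * (∑ j ∈ J, Ce j) / r ^ 2 * iR F (fun g => ‖s g‖ ^ 2) := by
          rw [← Finset.sum_mul, ← Finset.sum_div]; ring
      _ ≤ η * iR F (fun g => ‖s g‖ ^ 2) := mul_le_mul_of_nonneg_right hCb' hV0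
  · refine hmain.trans (le_of_eq ?_)
    congr 1
    congr 1
    rw [Finset.mul_sum, Finset.mul_sum, ← Finset.sum_add_distrib, ← Finset.sum_add_distrib]
    refine Finset.sum_congr rfl (fun j _ => ?_)
    rw [mul_assoc 2 (l ^ 2)]
    rfl

end Pool.Agent.HV
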